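import Pool.Agent.Q37.LV.Cor

set_option autoImplicit false

/-!
# The scaled total stopping times in the residue classes to all moduli, beyond the square root

The normal law and the law of large numbers of the total stopping times of the `3x+1` function hold in the
residue classes: on average over all moduli `q` up to `√N exp ((log N) ^ (1 / 2 - δ))`, with the worst residue
class for every modulus, and in the mean square over all residue classes to all moduli up to a small multiple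
of `N`. So for almost all moduli `q` every residue class has its share of integers below
`q ^ 2 exp (- (log q) ^ (1 / 2 - δ))` with scaled total stopping time close to `(½ log (4/3))⁻¹ = 6.952...`,
and almost all residue classes to almost all moduli `q` have such elements below `K q`.

Method: the starting library shows that trajectories of all numbers in the intervals of length
`exp (√(log N) / (log log N) ^ 17)` have merged after few steps, with equally many odd steps, except for a small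
set of intervals given by congruences modulo a small power of two. A function which is constant on such
intervals has small Fourier coefficients at all fractions with denominators below the length; the large
sieve gives the rest.
-/

namespace Pool.Agent.Results.MP_f7abf1_nt.AllResidueClasses

open Filter Topology

/-- the `3x+1` function -/
def T (n : ℕ) : ℕ := if n % 2 = 0 then n / 2 else (3 * n + 1) / 2

/-- `t` is the total stopping time of `n` -/
def IsTotalStoppingTime (n t : ℕ) : Prop := T^[t] n = 1 ∧ ∀ j < t, T^[j] n ≠ 1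

/-- the number of odd terms among `n, T n, ..., T^(k-1) n` -/
def odds (k n : ℕ) : ℕ := ((Finset.range k).filter fun i => T^[i] n % 2 = 1).card

/-- `(½ log (4/3))⁻¹ + x * log 3 * √(2 / ((log (4/3))^3 log n))` -/
noncomputable def bound (x : ℝ) (n : ℕ) : ℝ :=
  (1 / 2 * Real.log (4 / 3))⁻¹ + x * (Real.log 3 * Real.sqrt (2 / (Real.log (4 / 3) ^ 3 * Real.log n)))

/-- The distribution function of the standard normal law. -/
noncomputable def Phi (x : ℝ) : ℝ :=
  ProbabilityTheory.cdf (ProbabilityTheory.gaussianReal 0 1) x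

/-- `n` has a finite total stopping time `t`, the scaled total stopping time `t / log n` is at most
`bound x n`, `t ≡ a` modulo `m` and the number of odd terms before reaching `1` is `≡ b` modulo `m` -/
def Level (m : ℕ) (a b : ℤ) (x : ℝ) (n : ℕ) : Prop :=
  ∃ t : ℕ, (t : ℝ) / Real.log n ≤ bound x n ∧ IsTotalStoppingTime n t ∧
    (t : ℤ) ≡ a [ZMOD m] ∧ (odds t n : ℤ) ≡ b [ZMOD m]

/-- `n` has a finite total stopping time and the scaled one differs by at most `η` from `(½ log (4/3))⁻¹` -/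
def Typical (η : ℝ) (n : ℕ) : Prop :=
  ∃ t : ℕ, IsTotalStoppingTime n t ∧ |(t : ℝ) / Real.log n - (1 / 2 * Real.log (4 / 3))⁻¹| ≤ η

/-- the number of the `1 ≤ n ≤ N`, `n ≡ a` modulo `q`, with the property `P` -/
noncomputable def count (P : ℕ → Prop) (N q : ℕ) (a : ℤ) : ℝ :=
  ({n : ℕ | 1 ≤ n ∧ n ≤ N ∧ (n : ℤ) ≡ a [ZMOD q] ∧ P n}.ncard : ℝ)

/-- `√N exp ((log N) ^ (1/2 - δ))` -/
noncomputable def level (δ : ℝ) (N : ℕ) : ℝ := √ (N : ℝ) * Real.exp (Real.log N ^ (1 / 2 - δ))

/-- `⌊Q ^ 2 exp (- (log Q) ^ (1/2 - δ))⌋` -/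
noncomputable def length (δ : ℝ) (Q : ℕ) : ℕ := ⌊(Q : ℝ) ^ 2 * Real.exp (-(Real.log Q ^ (1 / 2 - δ)))⌋₊

/-- The property `P` has the frequency `l` in the residue classes: on average over all moduli beyond the square
root, with any class for every modulus, and in the mean square over all residue classes to all moduli up to
a small multiple of the length. -/
def InClasses (P : ℕ → Prop) (l : ℝ) : Prop :=
  (∀ δ : ℝ, 0 < δ → ∀ ε : ℝ, 0 < ε → ∃ N₀ : ℕ, ∀ N : ℕ, N₀ ≤ N → ∀ Q : ℕ, 1 ≤ Q → (Q : ℝ) ≤ level δ N →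
    ∀ a : ℕ → ℤ, ∑ q ∈ Finset.Ico Q (2 * Q), |count P N q (a q) - l * N / q| ≤ ε * N) ∧
  (∀ ε : ℝ, 0 < ε → ∃ η : ℝ, 0 < η ∧ ∃ N₀ : ℕ, ∀ N : ℕ, N₀ ≤ N → ∀ Q : ℕ, 1 ≤ Q → (Q : ℝ) ≤ η * N →
    ∑ q ∈ Finset.Ico Q (2 * Q), ∑ a ∈ Finset.range q, (count P N q ((a : ℕ) : ℤ) - l * N / q) ^ 2 ≤ ε * N ^ 2)

/-! ### proofs -/

open Pool.Agent.Q37.LV Pool.Agent.Q37.BV

theorem T_eq : T = Pool.Agent.H499R2.ND.Tn := rfl

theorem inClasses_iff (P : ℕ → Prop) (l : ℝ) : InClasses P l ↔ RV P l := Iff.rfl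

theorem bound_iff (x : ℝ) {n : ℕ} (hn : 1 < n) (t : ℕ) :
    (t : ℝ) / Real.log n ≤ bound x n ↔ (t : ℝ) ≤ 2 / Real.log (4 / 3) * Real.log n
      + x * (Real.log 3 * Real.sqrt (2 * Real.log n / Real.log (4 / 3) ^ 3)) := by
  have hL : 0 < Real.log n := Real.log_pos (by exact_mod_cast hn)
  have hnu : 0 < Real.log (4 / 3) := Real.log_pos (by norm_num)
  rw [div_le_iff₀ hL]
  have e : bound x n * Real.log n = 2 / Real.log (4 / 3) * Real.log n
      + x * (Real.log 3 * Real.sqrt (2 * Real.log n / Real.log (4 / 3) ^ 3)) := by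
    unfold bound
    have h1 : Real.sqrt (2 * Real.log n / Real.log (4 / 3) ^ 3)
        = Real.sqrt (2 / (Real.log (4 / 3) ^ 3 * Real.log n)) * Real.log n := by
      have h2 : 2 * Real.log n / Real.log (4 / 3) ^ 3
          = 2 / (Real.log (4 / 3) ^ 3 * Real.log n) * Real.log n ^ 2 := by field_simp
      rw [h2, Real.sqrt_mul (by positivity), Real.sqrt_sq hL.le]
    rw [h1, add_mul]
    congr 1
    · field_simp
    · ring
  rw [e]

/-- equivalence for `n ≥ 2` suffices -/
theorem RV_congr2 {P Q : ℕ → Prop} {l : ℝ} (h : ∀ n, 2 ≤ n → (P n ↔ Q n)) (hP : RV P l) : RV Q l :=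
  RV_squeeze fun ζ hζ => ⟨P, P, l, l, 2, fun n hn => (h n hn).1, fun n hn => (h n hn).2, hP, hP, by linarith, by linarith,
    by linarith, by linarith⟩

/-- **The theorem.** -/
theorem result : ∃ δ : ℝ, 0 < δ ∧ δ ≤ 1 ∧
    (δ = 1 ↔ ∀ n : ℕ, 1 ≤ n → ∃ t, IsTotalStoppingTime n t) ∧
    -- (1) finite and infinite total stopping times
    InClasses (fun n => ∃ t, IsTotalStoppingTime n t) δ ∧
    InClasses (fun n => ∀ t, T^[t] n ≠ 1) (1 - δ) ∧
    -- (2) the law of large numbers
    (∀ η : ℝ, 0 < η → InClasses (Typical η) δ) ∧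
    -- (3) the normal law, jointly with the residue classes of the times
    (∀ (m : ℕ) (a b : ℤ) (x : ℝ), 1 ≤ m → InClasses (Level m a b x) (δ * Phi x / m ^ 2)) ∧
    -- (4) all residue classes to almost all moduli
    (∀ η θ ε : ℝ, 0 < η → 0 < θ → θ < 1 / 2 → 0 < ε → ∃ Q₀ : ℕ, ∀ Q : ℕ, Q₀ ≤ Q →
      ({q : ℕ | Q ≤ q ∧ q < 2 * Q ∧ ∃ a : ℤ, ε * (length θ Q / q) <
        |count (Typical η) (length θ Q) q a - δ * length θ Q / q|}.ncard : ℝ) ≤ ε * Q) ∧
    -- (5) almost all residue classes, moduli proportional to the length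
    (∀ η ε : ℝ, 0 < η → 0 < ε → ∃ K₀ Q₀ : ℕ, ∀ K Q : ℕ, K₀ ≤ K → Q₀ ≤ Q →
      ({p : ℕ × ℕ | Q ≤ p.1 ∧ p.1 < 2 * Q ∧ p.2 < p.1 ∧ ε * (((K * Q : ℕ) : ℝ) / p.1) <
        |count (Typical η) (K * Q) p.1 ((p.2 : ℕ) : ℤ) - δ * ((K * Q : ℕ) : ℝ) / p.1|}.ncard : ℝ) ≤ ε * Q ^ 2) := by
  obtain ⟨δ, h0, h1, h2, h3, h4, h5⟩ := rv_laws
  have hit : ∀ n : ℕ, (∃ t, IsTotalStoppingTime n t) ↔ ∃ k, Pool.Agent.H499R2.HL.H k n := fun n => Iff.rfl
  have hfull : δ = 1 ↔ ∀ n : ℕ, 1 ≤ n → ∃ t, IsTotalStoppingTime n t := by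
    rw [h2]
    refine forall_congr' fun n => forall_congr' fun _ => ?_
    exact Pool.Agent.Y964.LW.hit_iff n
  have hnu : 0 < Real.log (4 / 3) := Real.log_pos (by norm_num)
  have hl3 : 0 < Real.log 3 := Real.log_pos (by norm_num)
  have hrr := Pool.Agent.H499R2.HL.rr_pos
  have hlev : ∀ (m : ℕ) (a b : ℤ) (x : ℝ), 1 ≤ m → InClasses (Level m a b x) (δ * Phi x / m ^ 2) := by
    intro m a b x hm
    have h6 := ((h5 m a b hm).2.2 x).1
    have e : δ / (m : ℝ) ^ 2 * Pool.Agent.H499R2.ND.Phi x = δ * Phi x / m ^ 2 := by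
      unfold Phi
      rw [← Pool.Agent.H499R2.ND.phi_cdf]
      ring
    rw [e] at h6
    refine (inClasses_iff _ _).2 (RV_congr2 (fun n hn => ?_) h6)
    constructor
    · rintro ⟨k, hk, g1, g2, g3⟩
      exact ⟨k, (bound_iff x (by omega) k).2 g1, hk, g2, g3⟩
    · rintro ⟨k, g1, hk, g2, g3⟩
      exact ⟨k, hk, (bound_iff x (by omega) k).1 g1, g2, g3⟩
  have htyp : ∀ η : ℝ, 0 < η → RV (Typical η) δ := by
    intro η hη
    have h6 := rv_lln (f := fun k _ => (k : ℝ)) (α := 2 / Real.log (4 / 3)) (σ := Real.log 3 * Pool.Agent.H499R2.HL.rr)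
      (δ := δ) (η := η) (by positivity) h0.le h1 hη (fun x => by
        have h7 := ((h5 1 0 0 le_rfl).2.2 x).1
        have e : δ / ((1 : ℕ) : ℝ) ^ 2 * Pool.Agent.H499R2.ND.Phi x = δ * Pool.Agent.H499R2.ND.Phi x := by
          push_cast; ring
        rw [e] at h7
        refine RV_congr (fun n _ => ?_) h7
        refine exists_congr fun k => and_congr_right fun _ => ?_
        rw [Pool.Agent.Y964.LW.bk_thr]
        constructor
        · exact fun h => h.1
        · exact fun h => ⟨h, by simp [Int.modEq_iff_dvd], by simp [Int.modEq_iff_dvd]⟩) h4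
    refine RV_congr2 (fun n hn => ?_) h6
    have hL : 0 < Real.log n := Real.log_pos (by exact_mod_cast hn)
    refine exists_congr fun k => and_congr_right fun _ => ?_
    have e : (k : ℝ) / Real.log n - (1 / 2 * Real.log (4 / 3))⁻¹ = (k - 2 / Real.log (4 / 3) * Real.log n) / Real.log n := by
      field_simp
    rw [e, abs_div, abs_of_pos hL, div_le_iff₀ hL]
  have hnot : InClasses (fun n => ∀ t, T^[t] n ≠ 1) (1 - δ) := by
    refine (inClasses_iff _ _).2 (RV_not h4 (fun n => ?_))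
    rw [← Pool.Agent.Y964.LW.hit_iff n, not_exists]
    exact Iff.rfl
  refine ⟨δ, h0, h1, hfull, h4, hnot, htyp, hlev, ?_, ?_⟩
  · intro η θ ε hη hθ hθ2 hε
    exact mod_all (htyp η hη) hθ hθ2 hε
  · intro η ε hη hε
    exact pairs_all (htyp η hη) hε

end Pool.Agent.Results.MP_f7abf1_nt.AllResidueClasses
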