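import Pool.Agent.Q34.Coll.Near
import Pool.Agent.Results.MP_a1568a_nt.DescentRates
import Pool.Agent.Results.MP_a1568a_nt.PowerSavingLaw

/-!
# The 3x+1 map near the members of thin sequences of real numbers

Let `T` be the `3x+1` function, `B > 2 / log (4/3) = 6.95...` and `p = (log 2 - 1/B) / log 3`, `H` the
binary entropy. We say that `m` descends to `y` if some `T^k(m) ≤ y` with `k ≤ B log (m / T^k(m))`.

1. Let `v ≥ 1` be a sequence with exponent of convergence at most `τ` (for `v_n = (n + 1) ^ κ` this is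
   `1 / κ`, for `v_n = b ^ n` it is `0`), `0 ≤ θ < 1` and `0 < δ ≤ 1`. For all `α > 0` outside a set of
   Hausdorff dimension at most `(1 - (1 - H(p)) δ + τ) / (1 - θ)` and all but finitely many `n`, all the
   integers `m` with `|m - α v_n| ≤ v_n ^ θ` descend to `m ^ δ`.
2. For every `ε > 0` there is `c > 0` such that outside a set of dimension at most
   `(1 - c δ + τ) / (1 - θ)` all these `m` also reach a value `≤ m ^ δ` after `k` steps,
   `k ≤ (1 + ε) (2 / log (4/3)) log m`, and until then `log T^j(m)` differs from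
   `log m - (j/2) log (4/3)` by at most `ε log m`.
3. For all `B` there is `c > 1 - H(p)` such that for all sequences `v`, `w`, `y` with `1 ≤ v_n`,
   `0 ≤ w_n ≤ v_n`, `1 ≤ y_n` and `∑ w_n (1 + log v_n) ^ 3 / y_n ^ c < ∞`, for almost every `α > 0` and all
   but finitely many `n`, all the integers `m ≥ 1` with `|m - α v_n| ≤ w_n` descend to `y_n`.
4. In particular there is `K`, which depends on `B` only, such that for all `b > 1` and almost every
   `α > 0` all but finitely many of the integers `⌊α b ^ n⌋` descend to `n ^ K`.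
-/

set_option autoImplicit false

open Filter

namespace Pool.Agent.Results.MP_f7abf1_nt.DescentNearSequences

/-- the `3x+1` function -/
def T (n : ℕ) : ℕ := if n % 2 = 0 then n / 2 else (3 * n + 1) / 2

/-- the binary entropy function, in bits -/
noncomputable def H (p : ℝ) : ℝ := Real.binEntropy p / Real.log 2

/-- `n` reaches some `T^k(n) ≤ y` after `k ≤ B log (n / T^k(n))` steps -/
def Descends (B y : ℝ) (n : ℕ) : Prop :=
  ∃ k : ℕ, ((T^[k] n : ℕ) : ℝ) ≤ y ∧ (k : ℝ) ≤ B * Real.log ((n : ℝ) / (T^[k] n : ℕ))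

/-- The trajectory of `n` reaches a value `≤ y` at some time `k ≤ (1 + ε) (2 / log (4/3)) log n`, and
`log T^j n` differs from `log n - (j/2) log (4/3)` by at most `ε log n` for all `j ≤ k`. -/
def Regular (ε y : ℝ) (n : ℕ) : Prop :=
  ∃ k : ℕ, ((T^[k] n : ℕ) : ℝ) ≤ y ∧ (k : ℝ) ≤ (1 + ε) * (2 / Real.log (4 / 3)) * Real.log n ∧
    ∀ j ≤ k, |Real.log (T^[j] n : ℕ) - (Real.log n - j / 2 * Real.log (4 / 3))| ≤ ε * Real.log n

/-- the exponent of convergence of the sequence `v` is at most `τ` -/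
def ExpLe (v : ℕ → ℝ) (τ : ℝ) : Prop := ∀ t : ℝ, τ < t → Summable (fun n : ℕ => (v n) ^ (-t))

lemma T_eq : T = MP_a1568a_nt.DescentRates.T := rfl

lemma T_eq' : T = MP_a1568a_nt.PowerSavingLaw.T := rfl

lemma entropy_le (p : ℝ) : H p ≤ 1 := by
  have hl2 : 0 < Real.log 2 := Real.log_pos (by norm_num)
  unfold H
  rw [div_le_one hl2]
  exact Real.binEntropy_le_log_two

/-- the law of descent -/
lemma exists_law : ∃ c : ℝ → ℝ, ∀ B : ℝ, 2 / Real.log (4 / 3) < B →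
    1 - H ((Real.log 2 - 1 / B) / Real.log 3) < c B ∧
    ∃ C : ℝ, 0 ≤ C ∧ Q34.Coll.Law (fun y n => ¬ Descends B y n) 3 (c B) C := by
  obtain ⟨c, B₁, -, h⟩ := MP_a1568a_nt.DescentRates.result
  refine ⟨c, fun B hB => ?_⟩
  obtain ⟨h1, C, hC, h2⟩ := h B hB
  refine ⟨h1, C, hC.le, ⟨fun y y' n hy hn hn' => hn ?_, fun x y hx hy => h2 x y hx hy⟩⟩
  obtain ⟨k, hk1, hk2⟩ := hn'
  exact ⟨k, hk1.trans hy, hk2⟩

/-- a smaller exponent -/
lemma law_mono {bad : ℝ → ℕ → Prop} {p : ℕ} {c c' C : ℝ} (hC : 0 ≤ C) (hcc : c' ≤ c)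
    (h : Q34.Coll.Law bad p c C) : Q34.Coll.Law bad p c' C := by
  refine ⟨h.anti, fun x y hx hy => (h.bound x y hx hy).trans ?_⟩
  have hlx : 0 ≤ Real.log x := Real.log_nonneg (by linarith)
  have hy0 : 0 < y ^ c' := Real.rpow_pos_of_pos (by linarith) _
  refine mul_le_mul_of_nonneg_left ?_ (by positivity)
  exact div_le_div_of_nonneg_left (by linarith) hy0 (Real.rpow_le_rpow_of_exponent_le hy hcc)

/-- the law of the profile -/
lemma exists_profile (ε : ℝ) (hε : 0 < ε) : ∃ c : ℝ, 0 < c ∧ c ≤ 1 ∧ ∃ C : ℝ, 0 ≤ C ∧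
    Q34.Coll.Law (fun y n => ¬ Regular ε y n) 4 c C := by
  obtain ⟨c, C, hc, hC, h⟩ := MP_a1568a_nt.PowerSavingLaw.result ε hε
  refine ⟨min c 1, lt_min hc one_pos, min_le_right _ _, 2 * C, by linarith,
    ⟨fun y y' n hy hn hn' => hn ?_, fun x y hx hy => ?_⟩⟩
  · obtain ⟨k, hk1, hk2, hk3⟩ := hn'
    exact ⟨k, hk1.trans hy, hk2, hk3⟩
  · have hx0 : 0 < x := by linarith
    have hy0 : 0 < y := by linarith
    have hyc : 0 < y ^ c := Real.rpow_pos_of_pos hy0 c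
    have hyc1 : 1 ≤ y ^ c := Real.one_le_rpow hy hc.le
    have hlx : 0 ≤ Real.log x := Real.log_nonneg (by linarith)
    have h1 := h x y (x * y ^ c) hx hy (le_mul_of_one_le_right hx0.le hyc1)
    have hfin : {n : ℕ | 1 ≤ n ∧ (n : ℝ) ≤ x ∧
        ¬ MP_a1568a_nt.PowerSavingLaw.Regular ε y (x * y ^ c) n}.Finite :=
      Q34.Coll.finite_le x _
    have hsub : {n : ℕ | 1 ≤ n ∧ (n : ℝ) ≤ x ∧ ¬ Regular ε y n} ⊆
        {n : ℕ | 1 ≤ n ∧ (n : ℝ) ≤ x ∧
          ¬ MP_a1568a_nt.PowerSavingLaw.Regular ε y (x * y ^ c) n} := by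
      rintro n ⟨g1, g2, g3⟩
      refine ⟨g1, g2, fun g4 => g3 ?_⟩
      obtain ⟨k, hk1, hk2, hk3⟩ := g4
      exact ⟨k, hk1, hk2, fun j hj => (hk3 j hj).1⟩
    have h2 : (({n : ℕ | 1 ≤ n ∧ (n : ℝ) ≤ x ∧ ¬ Regular ε y n}.ncard : ℕ) : ℝ) ≤
        ({n : ℕ | 1 ≤ n ∧ (n : ℝ) ≤ x ∧
          ¬ MP_a1568a_nt.PowerSavingLaw.Regular ε y (x * y ^ c) n}.ncard : ℝ) := by
      exact_mod_cast Set.ncard_le_ncard hsub hfin
    refine h2.trans (h1.trans ?_)
    have h3 : x ^ 2 / (x * y ^ c) = x / y ^ c := by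
      rw [pow_two]
      exact mul_div_mul_left _ _ hx0.ne'
    rw [h3]
    have h4 : x / y ^ c ≤ x / y ^ (min c 1) :=
      div_le_div_of_nonneg_left hx0.le (Real.rpow_pos_of_pos hy0 _)
        (Real.rpow_le_rpow_of_exponent_le hy (min_le_left _ _))
    calc C * Real.log x ^ 4 * (x / y ^ c + x / y ^ c)
        ≤ C * Real.log x ^ 4 * (x / y ^ (min c 1) + x / y ^ (min c 1)) :=
          mul_le_mul_of_nonneg_left (add_le_add h4 h4) (by positivity)
      _ = _ := by ring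

/-- **Theorem.** -/
theorem result :
    -- 1. descent near real sequences
    (∀ B δ : ℝ, 2 / Real.log (4 / 3) < B → 0 < δ → δ ≤ 1 →
      ∀ (v : ℕ → ℝ) (τ θ : ℝ), (∀ n, 1 ≤ v n) → 0 ≤ τ → ExpLe v τ → 0 ≤ θ → θ < 1 →
      ∃ E : Set ℝ, dimH E ≤ ENNReal.ofReal
          ((1 - (1 - H ((Real.log 2 - 1 / B) / Real.log 3)) * δ + τ) / (1 - θ)) ∧
        ∀ α : ℝ, 0 < α → α ∉ E → ∃ n₀ : ℕ, ∀ n : ℕ, n₀ ≤ n → ∀ m : ℕ,
          |(m : ℝ) - α * v n| ≤ (v n) ^ θ → 0 < m ∧ Descends B ((m : ℝ) ^ δ) m) ∧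
    -- 2. the profile
    (∀ ε : ℝ, 0 < ε → ∃ c : ℝ, 0 < c ∧ ∀ δ : ℝ, 0 < δ → δ ≤ 1 →
      ∀ (v : ℕ → ℝ) (τ θ : ℝ), (∀ n, 1 ≤ v n) → 0 ≤ τ → ExpLe v τ → 0 ≤ θ → θ < 1 →
      ∃ E : Set ℝ, dimH E ≤ ENNReal.ofReal ((1 - c * δ + τ) / (1 - θ)) ∧
        ∀ α : ℝ, 0 < α → α ∉ E → ∃ n₀ : ℕ, ∀ n : ℕ, n₀ ≤ n → ∀ m : ℕ,
          |(m : ℝ) - α * v n| ≤ (v n) ^ θ → 0 < m ∧ Regular ε ((m : ℝ) ^ δ) m) ∧
    -- 3. almost all `α`
    (∀ B : ℝ, 2 / Real.log (4 / 3) < B →
      ∃ c : ℝ, 1 - H ((Real.log 2 - 1 / B) / Real.log 3) < c ∧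
      ∀ v w y : ℕ → ℝ, (∀ n, 1 ≤ v n) → (∀ n, 0 ≤ w n) → (∀ n, w n ≤ v n) → (∀ n, 1 ≤ y n) →
        Summable (fun n => w n * (1 + Real.log (v n)) ^ 3 / (y n) ^ c) →
        ∀ᵐ α : ℝ, 0 < α → ∀ᶠ n in atTop, ∀ m : ℕ, 1 ≤ m → |(m : ℝ) - α * v n| ≤ w n →
          Descends B (y n) m) ∧
    -- 4. geometric sequences
    (∀ B : ℝ, 2 / Real.log (4 / 3) < B → ∃ K : ℝ, ∀ b : ℝ, 1 < b →
      ∀ᵐ α : ℝ, 0 < α → ∀ᶠ n : ℕ in atTop, Descends B ((n : ℝ) ^ K) ⌊α * b ^ n⌋₊) ∧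
    -- examples of sequences
    (∀ κ : ℝ, 0 < κ → ExpLe (fun n : ℕ => ((n : ℝ) + 1) ^ κ) (1 / κ)) ∧
    (∀ b : ℝ, 1 < b → ExpLe (fun n : ℕ => b ^ n) 0) := by
  obtain ⟨c, hc⟩ := exists_law
  refine ⟨fun B δ hB hδ hδ1 v τ θ hv hτ hE _ hθ1 => ?_, fun ε hε => ?_, fun B hB => ?_,
    fun B hB => ?_, fun κ hκ => Y854.GM.expLe_pow κ hκ, fun b hb => Y854.GM.expLe_geom b hb⟩
  · obtain ⟨h1, C, hC, hL⟩ := hc B hB
    set η : ℝ := 1 - H ((Real.log 2 - 1 / B) / Real.log 3) with hη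
    have hη1 : η ≤ 1 := by
      have : 0 ≤ H ((Real.log 2 - 1 / B) / Real.log 3) := by
        have hl3 : 0 < Real.log 3 := Real.log_pos (by norm_num)
        have hl2 : 0 < Real.log 2 := Real.log_pos (by norm_num)
        have e43 : Real.log (4 / 3) = 2 * Real.log 2 - Real.log 3 := by
          rw [Real.log_div (by norm_num) (by norm_num), show (4 : ℝ) = 2 ^ 2 by norm_num,
            Real.log_pow]
          push_cast; ring
        have h43 : 0 < Real.log (4 / 3) := Real.log_pos (by norm_num)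
        have hB0 : 0 < B := lt_trans (by positivity) hB
        have hB1 : 1 / B < Real.log (4 / 3) / 2 := by
          rw [div_lt_iff₀ h43] at hB
          rw [div_lt_iff₀ hB0]
          linarith
        unfold H
        refine div_nonneg (Real.binEntropy_nonneg ?_ ?_) hl2.le
        · refine div_nonneg ?_ hl3.le
          linarith
        · rw [div_le_one hl3]
          have h23 : Real.log 2 ≤ Real.log 3 := Real.log_le_log (by norm_num) (by norm_num)
          have : 0 < 1 / B := by positivity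
          linarith
      linarith
    have hη0 : 0 ≤ η := by
      have := entropy_le ((Real.log 2 - 1 / B) / Real.log 3)
      linarith
    obtain ⟨E, hE1, hE2⟩ := (law_mono hC h1.le hL).windows hC hδ.le
      (by nlinarith : η * δ ≤ 1) hv hτ hE hθ1
    refine ⟨E, hE1, fun α hα hαE => ?_⟩
    obtain ⟨n₀, hn⟩ := hE2 α hα hαE
    exact ⟨n₀, fun n hn1 m hm => ⟨(hn n hn1 m hm).1, not_not.1 (hn n hn1 m hm).2⟩⟩
  · obtain ⟨c', hc0, hc1, C, hC, hL⟩ := exists_profile ε hε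
    refine ⟨c', hc0, fun δ hδ hδ1 v τ θ hv hτ hE _ hθ1 => ?_⟩
    obtain ⟨E, hE1, hE2⟩ := hL.windows hC hδ.le (by nlinarith : c' * δ ≤ 1) hv hτ hE hθ1
    refine ⟨E, hE1, fun α hα hαE => ?_⟩
    obtain ⟨n₀, hn⟩ := hE2 α hα hαE
    exact ⟨n₀, fun n hn1 m hm => ⟨(hn n hn1 m hm).1, not_not.1 (hn n hn1 m hm).2⟩⟩
  · obtain ⟨h1, C, hC, hL⟩ := hc B hB
    refine ⟨c B, h1, fun v w y hv hw0 hw hy hsum => ?_⟩
    filter_upwards [hL.ae hC hv hw0 hw hy hsum] with α hα hα0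
    filter_upwards [hα hα0] with n hn m hm1 hm2
    exact not_not.1 (hn m hm1 hm2)
  · obtain ⟨h1, C, hC, hL⟩ := hc B hB
    have hcB : 0 < c B := by
      refine lt_of_le_of_lt ?_ h1
      have := entropy_le ((Real.log 2 - 1 / B) / Real.log 3)
      linarith
    refine ⟨5 / c B, fun b hb => ?_⟩
    have hb0 : 0 < b := by linarith
    have hlb : 0 < Real.log b := Real.log_pos hb
    set y : ℕ → ℝ := fun n => (max 1 (n : ℝ)) ^ (5 / c B) with hy
    have hmax : ∀ n : ℕ, (1 : ℝ) ≤ max 1 (n : ℝ) := fun n => le_max_left _ _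
    have hyc : ∀ n : ℕ, (y n) ^ c B = (max 1 (n : ℝ)) ^ (5 : ℝ) := by
      intro n
      rw [hy]
      dsimp only
      rw [← Real.rpow_mul (by linarith [hmax n]), div_mul_cancel₀ _ hcB.ne']
    have hsum : Summable fun n : ℕ =>
        (fun _ => (1 : ℝ)) n * (1 + Real.log ((fun n => b ^ n) n)) ^ 3 / (y n) ^ c B := by
      have h2 : Summable fun n : ℕ => (1 + Real.log b) ^ 3 * 8 * (1 / ((n : ℝ)) ^ 2) :=
        (Real.summable_one_div_nat_pow.2 (by norm_num)).mul_left _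
      refine Summable.of_norm_bounded_eventually_nat h2 ?_
      filter_upwards [eventually_ge_atTop 1] with n hn
      have hn1 : (1 : ℝ) ≤ n := by exact_mod_cast hn
      have hn0 : (0 : ℝ) < n := by linarith
      have hm : max 1 (n : ℝ) = n := max_eq_right hn1
      rw [hyc, hm, Real.log_pow, one_mul, Real.norm_of_nonneg (by positivity)]
      have h3 : (n : ℝ) ^ (5 : ℝ) = (n : ℝ) ^ 5 := by
        rw [← Real.rpow_natCast]; norm_num
      rw [h3]
      have h4 : 1 + (n : ℝ) * Real.log b ≤ (1 + Real.log b) * n := by nlinarith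
      calc (1 + (n : ℝ) * Real.log b) ^ 3 / (n : ℝ) ^ 5
          ≤ ((1 + Real.log b) * n) ^ 3 / (n : ℝ) ^ 5 :=
            div_le_div_of_nonneg_right (pow_le_pow_left₀ (by positivity) h4 3) (by positivity)
        _ = (1 + Real.log b) ^ 3 * (1 / (n : ℝ) ^ 2) := by field_simp
        _ ≤ (1 + Real.log b) ^ 3 * 8 * (1 / (n : ℝ) ^ 2) := by
            refine mul_le_mul_of_nonneg_right ?_ (by positivity)
            nlinarith [pow_pos (by linarith : (0 : ℝ) < 1 + Real.log b) 3]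
    have h2 := hL.ae hC (v := fun n => b ^ n) (w := fun _ => 1) (y := y)
      (fun n => one_le_pow₀ hb.le) (fun _ => zero_le_one) (fun n => one_le_pow₀ hb.le)
      (fun n => Real.one_le_rpow (hmax n) (by positivity)) hsum
    filter_upwards [h2] with α hα hα0
    have hbig : ∀ᶠ n : ℕ in atTop, 1 ≤ α * b ^ n := by
      have h3 : Tendsto (fun n : ℕ => α * b ^ n) atTop atTop :=
        (tendsto_pow_atTop_atTop_of_one_lt hb).const_mul_atTop hα0
      exact h3.eventually_ge_atTop 1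
    filter_upwards [hα hα0, hbig, eventually_ge_atTop 1] with n hn hn1 hn2
    have hn3 : (1 : ℝ) ≤ n := by exact_mod_cast hn2
    have hfl : 1 ≤ ⌊α * b ^ n⌋₊ := Nat.le_floor (by exact_mod_cast hn1)
    have h3 := hn ⌊α * b ^ n⌋₊ hfl (by
      have h4 := Nat.floor_le (show 0 ≤ α * b ^ n by linarith)
      have h5 := Nat.lt_floor_add_one (α * b ^ n)
      rw [abs_le]
      constructor <;> linarith)
    have h4 := not_not.1 h3
    rw [hy] at h4
    dsimp only at h4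
    rwa [max_eq_right hn3] at h4

end Pool.Agent.Results.MP_f7abf1_nt.DescentNearSequences
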