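import Pool.Agent.Y966.LD.Main1

/-!
The lower tail of the total stopping time of the `3x+1` function: for small slopes the large deviation
law of the repeated random walk model is exact, for all trajectories.

The upper bound comes from an exact count, for each `k` and `o`, of the integers with total stopping
time `k` and `o` odd terms, by exponential tilting with a parameter above `2/3`; this determines the
tail as long as the tilted walk has at most one third odd steps. The lower bound is the tree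
construction of the starting result `LowerHalf`.
-/

set_option autoImplicit false

namespace Pool.Agent.Results.MP_f7abf1_nt.LowerTailLaw

/-- The `3x+1` function. -/
def T (n : ℕ) : ℕ := if n % 2 = 0 then n / 2 else (3 * n + 1) / 2

/-- `k` is the total stopping time of `n`: the least `k ≥ 0` with `T^(k)(n) = 1` (so it is finite). -/
def IsStoppingTime (n k : ℕ) : Prop := IsLeast {j : ℕ | T^[j] n = 1} k

/-- `g(a) = sup_θ (θ a - log (½ (2^θ + (2/3)^θ)))`. -/
noncomputable def g (a : ℝ) : ℝ :=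
  ⨆ θ : ℝ, (θ * a - Real.log ((1 / 2) * ((2 : ℝ) ^ θ + (2 / 3 : ℝ) ^ θ)))

/-- The integers `2 ≤ n ≤ x` with `σ_∞(n) ≤ α log n`. -/
def Low (α x : ℝ) : Set ℕ :=
  {n : ℕ | 2 ≤ n ∧ (n : ℝ) ≤ x ∧ ∃ k : ℕ, IsStoppingTime n k ∧ (k : ℝ) ≤ α * Real.log n}

/-- The integers `2 ≤ n ≤ x` with `|σ_∞(n) / log n - α| ≤ δ`. -/
def Near (α δ x : ℝ) : Set ℕ :=
  {n : ℕ | 2 ≤ n ∧ (n : ℝ) ≤ x ∧ ∃ k : ℕ, IsStoppingTime n k ∧ |(k : ℝ) / Real.log n - α| ≤ δ}

open Pool.Agent.H395R2.G3 Pool.Agent.Y966.LD in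
theorem low_eq (α x : ℝ) : Low α x = SetLow α x := rfl

open Pool.Agent.H395R2.G3 Pool.Agent.Y966.LD in
/-- (1) For `1 / log 2 < α ≤ 3 / log (8/3)` (`= 3.0586...`) the number of `n ≤ x` with
`σ_∞(n) ≤ α log n` is `x^(1 - α g(1/α) + o(1))`, with an exponent strictly between `0` and `1`.
(2) For `1 / log 2 < α < 3 / log (8/3)` also the number of `n ≤ x` with `σ_∞(n) / log n` near `α` is
`x^(1 - α g(1/α) + o(1))`, in the sense of large deviations.
(3) For every `α > 1 / log 2` the number of `n ≤ x` with `σ_∞(n) ≤ α log n` is at most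
`x^(E + o(1))`, `E = (log (3/2) / log 3) (α log (3/2) + 1)`, and `E < 1` if and only if
`α < log 2 / log (3/2) ^ 2` (`= 4.216...`). -/
theorem result :
    (∀ α : ℝ, 1 / Real.log 2 < α → α ≤ 3 / Real.log (8 / 3) →
      0 < 1 - α * g (1 / α) ∧ 1 - α * g (1 / α) < 1 ∧
      ∀ ε : ℝ, 0 < ε → ∃ X₀ : ℝ, ∀ x : ℝ, X₀ ≤ x →
        x ^ (1 - α * g (1 / α) - ε) ≤ ((Low α x).ncard : ℝ) ∧
        ((Low α x).ncard : ℝ) ≤ x ^ (1 - α * g (1 / α) + ε)) ∧
    (∀ α : ℝ, 1 / Real.log 2 < α → α < 3 / Real.log (8 / 3) → ∀ ε : ℝ, 0 < ε →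
      ∃ δ₀ : ℝ, 0 < δ₀ ∧ ∀ δ : ℝ, 0 < δ → δ ≤ δ₀ → ∃ X₀ : ℝ, ∀ x : ℝ, X₀ ≤ x →
        x ^ (1 - α * g (1 / α) - ε) ≤ ((Near α δ x).ncard : ℝ) ∧
        ((Near α δ x).ncard : ℝ) ≤ x ^ (1 - α * g (1 / α) + ε)) ∧
    (∀ α : ℝ, 1 / Real.log 2 < α →
      (∀ ε : ℝ, 0 < ε → ∃ X₀ : ℝ, ∀ x : ℝ, X₀ ≤ x → ((Low α x).ncard : ℝ) ≤
        x ^ (Real.log (3 / 2) / Real.log 3 * (α * Real.log (3 / 2) + 1) + ε)) ∧
      (Real.log (3 / 2) / Real.log 3 * (α * Real.log (3 / 2) + 1) < 1 ↔
        α < Real.log 2 / Real.log (3 / 2) ^ 2)) := by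
  have hl2 : 0 < Real.log 2 := Real.log_pos (by norm_num)
  have hl3 : 0 < Real.log 3 := Real.log_pos (by norm_num)
  have h32 : 0 < Real.log (3 / 2) := Real.log_pos (by norm_num)
  have hg : ∀ a : ℝ, g a = rate a := fun _ => rfl
  have hpos : ∀ α : ℝ, 1 / Real.log 2 < α → α ≤ 3 / Real.log (8 / 3) →
      0 < 1 - α * g (1 / α) := by
    intro α hα h
    have hα0 : 0 < α := lt_trans (by positivity) hα
    rw [hg, expo_eq hα]
    exact mul_pos hα0 (FF_pos_of (rr_pos hα) (lt_of_le_of_lt (rr_le_third hα h) third_lt)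
      (by norm_num) FF_low.le)
  refine ⟨fun α hα h => ⟨hpos α hα h, ?_, fun ε hε => main_low.1 α hα h ε hε⟩,
    fun α hα h ε hε => ?_, fun α hα => ⟨fun ε hε => main_low.2 α hα ε hε, ?_⟩⟩
  · have hα0 : 0 < α := lt_trans (by positivity) hα
    rw [hg, expo_eq hα]
    have h1 : Real.binEntropy (rr α) < Real.log 2 := by
      rw [Real.binEntropy_lt_log_two]
      intro h2
      have := rr_le_third hα h
      rw [h2] at this
      norm_num at this
    have h3 : FF (rr α) < 1 / α := by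
      rw [rr_spec α]
      unfold FF
      linarith
    rwa [lt_div_iff₀ hα0, mul_comm] at h3
  · have hα0 : 0 < α := lt_trans (by positivity) hα
    -- continuity of the exponent
    have hc : ContinuousAt (fun a => a * FF (rr a)) α := by
      have h1 : ContinuousAt rr α := by
        unfold rr
        have : α ≠ 0 := hα0.ne'
        fun_prop (disch := assumption)
      exact continuousAt_id.mul (FF_cont.continuousAt.comp h1)
    have h2 : ∀ᶠ a in nhds α, a * FF (rr a) < α * FF (rr α) + ε / 2 :=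
      hc.eventually (gt_mem_nhds (by linarith))
    have h3 : ∀ᶠ a in nhds α, a < 3 / Real.log (8 / 3) := gt_mem_nhds h
    obtain ⟨η, hη, hball⟩ := Metric.eventually_nhds_iff.1 (h2.and h3)
    refine ⟨min (η / 2) ε, lt_min (by positivity) hε, fun δ hδ hδδ => ?_⟩
    have hδη : δ < η := by
      have := hδδ.trans (min_le_left _ _)
      linarith
    have hδε : δ ≤ ε := hδδ.trans (min_le_right _ _)
    obtain ⟨hb1, hb2⟩ := hball (y := α + δ) (by
      rw [Real.dist_eq, add_sub_cancel_left, abs_of_pos hδ]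
      exact hδη)
    have hαδ : 1 / Real.log 2 < α + δ := by linarith
    obtain ⟨X₁, hX₁⟩ := (main_low.1 (α + δ) hαδ hb2.le (ε / 2) (by positivity))
    obtain ⟨γ₀, hnum, hγ, huniq, hlow, hld⟩ := main_gamma
    have hαγ : α < γ₀ := by
      have h83 : 0 < Real.log (8 / 3) := Real.log_pos (by norm_num)
      have e1 : (1 : ℝ) / 2 < Real.log (8 / 3) := by
        rw [Real.lt_log_iff_exp_lt (by norm_num)]
        have h5 : Real.exp (1 / 2) ^ 2 = Real.exp 1 := by
          rw [← Real.exp_nat_mul]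
          norm_num
        have h6 := Real.exp_one_lt_d9
        nlinarith [Real.exp_pos (1 / 2 : ℝ)]
      have e2 : 3 / Real.log (8 / 3) < 6 := by
        rw [div_lt_iff₀ h83]
        linarith
      linarith [hnum.1]
    obtain ⟨X₂, hX₂⟩ := (hld α hα hαγ).2 δ hδ
    refine ⟨max (max X₁ X₂) 1, fun x hx => ⟨?_, ?_⟩⟩
    · have hx1 : 1 ≤ x := (le_max_right _ _).trans hx
      refine le_trans ?_ (hX₂ x (((le_max_right _ _).trans (le_max_left _ _)).trans hx))
      apply Real.rpow_le_rpow_of_exponent_le hx1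
      rw [hg]
      linarith
    · have hx1 : 1 ≤ x := (le_max_right _ _).trans hx
      have hsub : Near α δ x ⊆ SetLow (α + δ) x := by
        rintro m ⟨hm2, hmx, k, hk1, hk2⟩
        refine ⟨hm2, hmx, k, hk1, ?_⟩
        have hlog : 0 < Real.log m := Real.log_pos (by exact_mod_cast hm2)
        have h6 := (abs_le.1 hk2).2
        have h8 : (k : ℝ) / Real.log m ≤ α + δ := by linarith
        rwa [div_le_iff₀ hlog] at h8
      have h4 : ((Near α δ x).ncard : ℝ) ≤ ((SetLow (α + δ) x).ncard : ℝ) := by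
        exact_mod_cast Set.ncard_le_ncard hsub (SetLow_finite (α + δ) x)
      refine (h4.trans (hX₁ x (((le_max_left _ _).trans (le_max_left _ _)).trans hx)).2).trans ?_
      apply Real.rpow_le_rpow_of_exponent_le hx1
      rw [expo_eq hαδ, hg, expo_eq hα]
      linarith
  · have e1 : Real.log 3 = Real.log (3 / 2) + Real.log 2 := by
      rw [← Real.log_mul (by norm_num) (by norm_num)]
      norm_num
    rw [div_mul_eq_mul_div, div_lt_one hl3, lt_div_iff₀ (by positivity), e1]
    constructor <;> intro h <;> nlinarith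

end Pool.Agent.Results.MP_f7abf1_nt.LowerTailLaw
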