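import Pool.Agent.Q250.CL.PowM
import Pool.Agent.Q250.CL.Coll

set_option autoImplicit false

/-!
# Mean values of functions of the scaled total stopping time at return times and in Waring's problem

Let `γ_∞(n) = σ_∞(n) / log n` be the scaled total stopping time of the `3x+1` function (`∞` if `n` does not reach `1`),
`c = 1 / ((1/2) log (4/3)) = 6.95...` its expected value in the random walk model, `φ` any bounded real function on `[0, ∞]`
which is continuous at `c`, and `M(φ) = δ φ(c) + (1 - δ) φ(∞)`, where `δ > 0` is the density of the integers which reach `1`.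
Then `φ(γ_∞(n))` may be replaced by its mean value `M(φ)`:

* in multiple ergodic averages of `k` commuting invertible measure preserving transformations, in `L²` and uniformly in
  the transformations, the space and the functions, and in the sums over the (multiple) return times;
* in the pointwise ergodic theorem for square integrable functions, for almost every point and all `φ` at once;
* in the average over all the representations of `n` as the sum of a positive integer `x` and of `r ≥ r₀(k)` positive `k`-th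
  powers, for every integer `n → ∞`.

In particular the truncated scaled stopping times `min (γ_∞, Λ)`, `Λ > c`, have the mean value `δ c + (1 - δ) Λ`; if in one of
these situations their average is at most `c + o(1)` along one sequence, then all integers reach `1`.

Method: small Gowers norms and window means of the invariant sets (`Pool/Agent/Q49/{ME,PE,WA}`), and the law of large
numbers for the total stopping time.
-/

namespace Pool.Agent.Results.MP_f7abf1_nt.MeanValues

open Filter Topology MeasureTheory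
open scoped ENNReal

/-- The `3x+1` function. -/
def T (n : ℕ) : ℕ := if n % 2 = 0 then n / 2 else (3 * n + 1) / 2

open Classical in
/-- The total stopping time `σ_∞(n)`: the least `k ≥ 0` with `T^(k)(n) = 1`, and `∞` if there is none. -/
noncomputable def sigma (n : ℕ) : ℕ∞ :=
  if h : ∃ k : ℕ, T^[k] n = 1 then ((Nat.find h : ℕ) : ℕ∞) else ⊤

/-- The scaled total stopping time `γ_∞(n) = σ_∞(n) / log n` in `[0, ∞]` (used for `n ≥ 2`). -/
noncomputable def scaled (n : ℕ) : ℝ≥0∞ :=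
  (sigma n : ℝ≥0∞) / ENNReal.ofReal (Real.log n)

/-- the expected value of the random walk model -/
noncomputable def c : ℝ := (1 / 2 * Real.log (4 / 3))⁻¹

/-- the positive integers with the property `P` have the natural density `δ` -/
def HasDensity (P : ℕ → Prop) (δ : ℝ) : Prop :=
  Tendsto (fun N : ℕ => ({n : ℕ | 1 ≤ n ∧ n ≤ N ∧ P n}.ncard : ℝ) / N) atTop (𝓝 δ)

/-- bounded functions on `[0, ∞]` which are continuous at `c` -/
def Good (φ : ℝ≥0∞ → ℝ) : Prop := (∃ M : ℝ, ∀ y, |φ y| ≤ M) ∧ ContinuousAt φ (ENNReal.ofReal c)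

/-- `M(φ) = δ φ(c) + (1 - δ) φ(∞)` -/
noncomputable def mean (δ : ℝ) (φ : ℝ≥0∞ → ℝ) : ℝ := δ * φ (ENNReal.ofReal c) + (1 - δ) * φ ⊤

/-- `min (y, Λ)` -/
noncomputable def trunc (Λ : ℝ) (y : ℝ≥0∞) : ℝ := (min y (ENNReal.ofReal Λ)).toReal

/-- `k` commuting invertible measure preserving transformations of a probability space `X` -/
structure System (k : ℕ) (X : Type) [MeasurableSpace X] where
  μ : Measure X
  prob : IsProbabilityMeasure μ
  T : Fin k → X ≃ᵐ X
  mp : ∀ i, MeasurePreserving (T i) μ μ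
  comm : ∀ i j x, T i (T j x) = T j (T i x)

/-- measurable functions with values in the unit disc -/
def Bounded {k : ℕ} {X : Type} [MeasurableSpace X] (f : Fin k → X → ℂ) : Prop :=
  ∀ i, Measurable (f i) ∧ ∀ x, ‖f i x‖ ≤ 1

/-- the average over `n ≤ N` of `w(n) f 1 (T 1 ^ n x) ⋯ f k (T k ^ n x)` -/
noncomputable def System.avg {k : ℕ} {X : Type} [MeasurableSpace X] (Y : System k X) (f : Fin k → X → ℂ) (w : ℕ → ℝ)
    (N : ℕ) (x : X) : ℂ :=
  (∑ n ∈ Finset.Icc 1 N, ((w n : ℝ) : ℂ) * ∏ i, f i ((Y.T i)^[n] x)) / N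

/-- the measure of `A₀ ∩ T 1 ^ (-n) A 1 ∩ ... ∩ T k ^ (-n) A k` -/
noncomputable def System.ret {k : ℕ} {X : Type} [MeasurableSpace X] (Y : System k X) (A₀ : Set X) (A : Fin k → Set X)
    (n : ℕ) : ℝ := Y.μ.real (A₀ ∩ {x | ∀ i, (Y.T i)^[n] x ∈ A i})

/-- the sum over `n ≤ N` of `w(n)` times the measure of `A₀ ∩ T 1 ^ (-n) A 1 ∩ ... ∩ T k ^ (-n) A k` -/
noncomputable def System.retSum {k : ℕ} {X : Type} [MeasurableSpace X] (Y : System k X) (A₀ : Set X)
    (A : Fin k → Set X) (w : ℕ → ℝ) (N : ℕ) : ℝ := ∑ n ∈ Finset.Icc 1 N, w n * Y.ret A₀ A n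

/-- The numbers `w n` have the mean value `m` in multiple ergodic averages. (1) For all `k` and `ε > 0`, if `N` is large,
then for every system of `k` commuting invertible measure preserving transformations and all measurable `f 1, ..., f k`
with values in the unit disc, the average with the weights `w n - m` has a norm at most `ε` in `L²`; and the sum of
`w n - m` times the measures of `A₀ ∩ T 1 ^ (-n) A 1 ∩ ... ∩ T k ^ (-n) A k` is at most `ε N` in absolute value. (2) If
the averages with the weights `1` converge in `L²` to `L`, then those with the weights `w n` converge to `m L` in `L²`. -/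
def ErgodicMean (w : ℕ → ℝ) (m : ℝ) : Prop :=
  (∀ (k : ℕ) (ε : ℝ), 0 < ε → ∃ N₀ : ℕ, ∀ N : ℕ, N₀ ≤ N → ∀ (X : Type) [MeasurableSpace X] (Y : System k X),
    (∀ f : Fin k → X → ℂ, Bounded f → ∫ x, ‖Y.avg f (fun n => w n - m) N x‖ ^ 2 ∂Y.μ ≤ ε ^ 2) ∧
    ∀ (A₀ : Set X) (A : Fin k → Set X), MeasurableSet A₀ → (∀ i, MeasurableSet (A i)) →
      |Y.retSum A₀ A (fun n => w n - m) N| ≤ ε * N) ∧
  ∀ (k : ℕ) (X : Type) [MeasurableSpace X] (Y : System k X) (f : Fin k → X → ℂ), Bounded f → ∀ L : X → ℂ,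
    MemLp L 2 Y.μ →
    Tendsto (fun N : ℕ => ∫ x, ‖Y.avg f (fun _ => 1) N x - L x‖ ^ 2 ∂Y.μ) atTop (𝓝 0) →
    Tendsto (fun N : ℕ => ∫ x, ‖Y.avg f w N x - m * L x‖ ^ 2 ∂Y.μ) atTop (𝓝 0)

/-- the sum of `w (n - m 1 ^ k - ... - m r ^ k)` over the positive integers `m 1, ..., m r` with
`m 1 ^ k + ... + m r ^ k < n` -/
noncomputable def powSum (w : ℕ → ℝ) (n k r : ℕ) : ℝ :=
  ∑ m ∈ Fintype.piFinset (fun _ : Fin r => Finset.Icc 1 n), if ∑ j, m j ^ k < n then w (n - ∑ j, m j ^ k) else 0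

/-! ### proofs -/

open Pool.Agent.Q250.CL
open Pool.Agent.H499R2.ND (Dn cnt Tn)

/-- translation -/
def conv {k : ℕ} {X : Type} [MeasurableSpace X] (Y : System k X) :
    Pool.Agent.Results.MP_2d22f3_nt.MultipleRecurrence.System k X := ⟨Y.μ, Y.prob, Y.T, Y.mp, Y.comm⟩

theorem mean_of {w : ℕ → ℝ} {m : ℝ} (h : MEW (fun _ n => w n - m)) : ErgodicMean w m := by
  refine ⟨fun k ε hε => ?_, fun k X _ Y f hf L hL hlim => ?_⟩
  · obtain ⟨N1, H1⟩ := h k (ε ^ 2) (by positivity)
    obtain ⟨N2, H2⟩ := mew_ret h k hε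
    refine ⟨N1 + N2 + 1, fun N hN X _ Y => ⟨fun f hf => ?_, fun A₀ A hA₀ hA => ?_⟩⟩
    · have h3 := H1 N (by omega) X (conv Y) f hf
      have hNp : (0 : ℝ) < N := by exact_mod_cast (by omega : 0 < N)
      have e1 : ∀ x, ‖Y.avg f (fun n => w n - m) N x‖ ^ 2
          = 1 / (N : ℝ) ^ 2 * ‖∑ n ∈ Finset.Icc 1 N, ((w n - m : ℝ) : ℂ) * (conv Y).P f n x‖ ^ 2 := by
        intro x
        unfold System.avg
        rw [norm_div, Complex.norm_natCast, div_pow, div_eq_mul_one_div, mul_comm]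
        rfl
      simp_rw [e1]
      rw [integral_const_mul, one_div, inv_mul_le_iff₀ (by positivity)]
      rw [mul_comm]
      exact h3
    · exact H2 N (by omega) X (conv Y) A₀ A hA₀ hA
  · have h1 := mew_lim (w := fun _ n => w n - m) (u := fun _ n => w n) (v := fun _ _ => 1) (c := m) h
      (Eventually.of_forall fun N n _ _ => by ring) (conv Y) hf hL hlim
    exact h1

theorem ofReal_tendsto {φ : ℝ≥0∞ → ℝ} (hφ : ContinuousAt φ (ENNReal.ofReal c)) {ε : ℝ} (hε : 0 < ε) :
    ∃ η : ℝ, 0 < η ∧ ∀ y : ℝ, |y - c| ≤ η → |φ (ENNReal.ofReal y) - φ (ENNReal.ofReal c)| ≤ ε := by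
  have h1 : ContinuousAt (fun y : ℝ => φ (ENNReal.ofReal y)) c :=
    ContinuousAt.comp (f := ENNReal.ofReal) (g := φ) hφ ENNReal.continuous_ofReal.continuousAt
  rw [Metric.continuousAt_iff] at h1
  obtain ⟨η, hη, H⟩ := h1 ε hε
  refine ⟨η / 2, by positivity, fun y hy => ?_⟩
  have h2 : dist y c < η := by rw [Real.dist_eq]; linarith
  have h3 := H h2
  rw [Real.dist_eq] at h3
  exact h3.le

theorem sigma_top {n : ℕ} : sigma n ≠ ⊤ ↔ ∃ k : ℕ, T^[k] n = 1 := by
  unfold sigma
  by_cases h : ∃ k : ℕ, T^[k] n = 1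
  · rw [dif_pos h]
    exact ⟨fun _ => h, fun _ => ENat.natCast_ne_top _⟩
  · rw [dif_neg h]
    exact ⟨fun h' => absurd rfl h', fun h' => absurd h' h⟩

theorem sigma_fst {n : ℕ} (h : ∃ k : ℕ, T^[k] n = 1) : sigma n = ((fst Tn n : ℕ) : ℕ∞) := by
  classical
  unfold sigma
  rw [dif_pos h]
  congr 1
  exact (fst_eq (f := Tn) (Nat.find_spec h) (fun j hj => Nat.find_min h hj)).symm

theorem scaled_fin {n : ℕ} (hn : 2 ≤ n) (h : ∃ k : ℕ, T^[k] n = 1) :
    scaled n = ENNReal.ofReal ((fst Tn n : ℝ) / Real.log n) := by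
  have hlog : 0 < Real.log n := Real.log_pos (by exact_mod_cast (by omega : 1 < n))
  unfold scaled
  rw [sigma_fst h, ENNReal.ofReal_div_of_pos hlog, ENNReal.ofReal_natCast]
  rfl

theorem scaled_top {n : ℕ} (h : ¬ ∃ k : ℕ, T^[k] n = 1) : scaled n = ⊤ := by
  unfold scaled
  have : sigma n = ⊤ := by
    by_contra hcon
    exact h (sigma_top.1 hcon)
  rw [this]
  exact ENNReal.top_div_of_ne_top ENNReal.ofReal_ne_top

theorem c_pos : 0 < c := by
  unfold c
  have : 0 < Real.log (4 / 3) := Real.log_pos (by norm_num)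
  positivity

theorem c_eq : c = 2 / Real.log (4 / 3) := by
  unfold c
  have : Real.log (4 / 3) ≠ 0 := (Real.log_pos (by norm_num)).ne'
  field_simp

theorem trunc_good {Λ : ℝ} (hΛ : c < Λ) : Good (trunc Λ) ∧ trunc Λ (ENNReal.ofReal c) = c ∧ trunc Λ ⊤ = Λ := by
  have hc0 := c_pos
  have hΛ0 : 0 < Λ := hc0.trans hΛ
  refine ⟨⟨⟨Λ, fun y => ?_⟩, ?_⟩, ?_, ?_⟩
  · unfold trunc
    rw [abs_of_nonneg ENNReal.toReal_nonneg]
    exact ENNReal.toReal_le_of_le_ofReal hΛ0.le (min_le_right _ _)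
  · unfold trunc
    refine ContinuousAt.comp (f := fun y : ℝ≥0∞ => min y (ENNReal.ofReal Λ)) (g := ENNReal.toReal)
      (ENNReal.continuousAt_toReal ?_) (continuous_id.min continuous_const).continuousAt
    exact ne_top_of_le_ne_top ENNReal.ofReal_ne_top (min_le_right _ _)
  · unfold trunc
    rw [min_eq_left (ENNReal.ofReal_le_ofReal hΛ.le), ENNReal.toReal_ofReal hc0.le]
  · unfold trunc
    rw [min_eq_right le_top, ENNReal.toReal_ofReal hΛ0.le]

open scoped Classical in
/-- MEAN VALUES OF FUNCTIONS OF THE SCALED TOTAL STOPPING TIME. There is `0 < δ ≤ 1`, the natural density of the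
positive integers with finite `σ_∞`, equal to `1` if and only if `σ_∞(n)` is finite for all `n ≥ 1`, such that, with
`M(φ) = δ φ(c) + (1 - δ) φ(∞)`: (1) for every bounded function `φ` on `[0, ∞]` which is continuous at `c`, the numbers
`φ(γ_∞(n))` have the mean value `M(φ)` in multiple ergodic averages. (2) Let `R` be a measure preserving transformation of
a probability space and `f` square integrable. For almost every `x`, for all `φ` as in (1), the average over `n ≤ N` of
`φ(γ_∞(n)) f (R ^ n x)` converges to `M(φ)` times the conditional expectation of `f` with respect to the invariant sets.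
(3) For every `k ≥ 1` there is `r₀` such that for all `r ≥ r₀` and all `φ` as in (1) the average of `φ(γ_∞(x))` over all the
representations of `n` as the sum of a positive integer `x` and of `r` positive `k`-th powers converges to `M(φ)` as
`n → ∞`, and all integers have finite `σ_∞` if for some `Λ > c` and infinitely many `n` the average of `min (γ_∞(x), Λ)` over
these representations is at most `c + o(1)`. (4) If for some `Λ > c` and `κ > 0` and infinitely many `N` there are a system and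
sets such that the sum of the measures of `A₀ ∩ T 1 ^ (-n) A 1 ∩ ... ∩ T k ^ (-n) A k` over `n ≤ N` is at least `κ N`, and the
average of `min (γ_∞(n), Λ)` with these measures as weights is at most `c + o(1)`, then `σ_∞(n)` is finite for all `n ≥ 1`. -/
theorem result : ∃ δ : ℝ, 0 < δ ∧ δ ≤ 1 ∧ (δ = 1 ↔ ∀ n : ℕ, 1 ≤ n → sigma n ≠ ⊤) ∧
    HasDensity (fun n => sigma n ≠ ⊤) δ ∧
    (∀ φ : ℝ≥0∞ → ℝ, Good φ → ErgodicMean (fun n => φ (scaled n)) (mean δ φ)) ∧
    (∀ (X : Type) [MeasurableSpace X] (μ : Measure X) [IsProbabilityMeasure μ] (R : X → X) (f : X → ℝ),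
      MeasurePreserving R μ μ → MemLp f 2 μ → ∀ᵐ x ∂μ, ∀ φ : ℝ≥0∞ → ℝ, Good φ →
        Tendsto (fun N : ℕ => (∑ n ∈ Finset.Icc 1 N, φ (scaled n) * f (R^[n] x)) / N) atTop
          (𝓝 (mean δ φ * (μ[f | MeasurableSpace.invariants R]) x))) ∧
    (∀ k : ℕ, 1 ≤ k → ∃ r₀ : ℕ, ∀ r : ℕ, r₀ ≤ r →
      (∀ φ : ℝ≥0∞ → ℝ, Good φ → Tendsto (fun n : ℕ => powSum (fun x => φ (scaled x)) n k r / powSum (fun _ => 1) n k r)
        atTop (𝓝 (mean δ φ))) ∧
      ∀ (Λ : ℝ) (ψ : ℕ → ℝ), c < Λ → Tendsto ψ atTop (𝓝 0) →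
        (∃ᶠ n : ℕ in atTop, powSum (fun x => trunc Λ (scaled x)) n k r / powSum (fun _ => 1) n k r ≤ c + ψ n) →
        ∀ n : ℕ, 1 ≤ n → sigma n ≠ ⊤) ∧
    ∀ (k : ℕ) (Λ κ : ℝ) (ψ : ℕ → ℝ), c < Λ → 0 < κ → Tendsto ψ atTop (𝓝 0) →
      (∃ᶠ N : ℕ in atTop, ∃ (X : Type) (_ : MeasurableSpace X) (Y : System k X) (A₀ : Set X) (A : Fin k → Set X),
        MeasurableSet A₀ ∧ (∀ i, MeasurableSet (A i)) ∧ κ * N ≤ Y.retSum A₀ A (fun _ => 1) N ∧
        Y.retSum A₀ A (fun n => trunc Λ (scaled n)) N ≤ (c + ψ N) * Y.retSum A₀ A (fun _ => 1) N) →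
      ∀ n : ℕ, 1 ≤ n → sigma n ≠ ⊤ := by
  obtain ⟨δ, h0, h1, h2, h3, hlln⟩ := lln_T
  set P : ℕ → Prop := fun n => ∃ k : ℕ, Tn^[k] n = 1 with hP
  have hPinv : ∀ n, 1 ≤ n → (P n ↔ P (Tn n)) := reach_inv
  have hfin : ∀ n : ℕ, sigma n ≠ ⊤ ↔ P n := fun n => sigma_top
  have hdens : HasDensity (fun n => sigma n ≠ ⊤) δ := by
    have : (fun n => sigma n ≠ ⊤) = P := funext fun n => propext (hfin n)
    rw [this]
    exact h3
  have hall : (∀ n : ℕ, 1 ≤ n → sigma n ≠ ⊤) ↔ ∀ n : ℕ, 1 ≤ n → P n :=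
    forall_congr' fun n => forall_congr' fun _ => hfin n
  have hone : δ = 1 → ∀ n : ℕ, 1 ≤ n → sigma n ≠ ⊤ := fun h => hall.2 (h2.1 h)
  set s : ℕ → ℝ := fun n => (fst Tn n : ℝ) with hs
  have hlln' : ∀ η : ℝ, 0 < η → Tendsto (fun N : ℕ =>
      cnt (fun n => P n ∧ η * Real.log n < |s n - c * Real.log n|) N / N) atTop (𝓝 0) := by
    intro η hη
    rw [c_eq]
    exact hlln η hη
  -- the error
  have herr : ∀ φ : ℝ≥0∞ → ℝ, Good φ → Tendsto (fun N : ℕ => (∑ n ∈ Finset.Icc 1 N,
      |φ (scaled n) - (if P n then φ (ENNReal.ofReal c) else φ ⊤)|) / N) atTop (𝓝 0) := by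
    intro φ hφ
    obtain ⟨⟨M, hM⟩, hcont⟩ := hφ
    have h4 := phi_err (P := P) (s := s) (u := fun n => φ (scaled n)) (κ := c) (uc := φ (ENNReal.ofReal c))
      (fun n => hM _) (fun ε hε => ?_) hlln'
    · refine h4.congr fun N => ?_
      congr 1
      apply Finset.sum_congr rfl; intro n hn
      congr 1
      by_cases hp : P n
      · rw [if_pos hp, if_pos hp]
      · rw [if_neg hp, if_neg hp, scaled_top hp, sub_self]
    · obtain ⟨η, hη, H⟩ := ofReal_tendsto hcont hε
      refine ⟨η, hη, fun n hn hp hb => ?_⟩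
      have hlog : 0 < Real.log n := Real.log_pos (by exact_mod_cast (by omega : 1 < n))
      show |φ (scaled n) - φ (ENNReal.ofReal c)| ≤ ε
      rw [scaled_fin hn hp]
      refine H _ ?_
      have e : (fst Tn n : ℝ) / Real.log n - c = (s n - c * Real.log n) / Real.log n := by
        rw [hs]; field_simp
      rw [e, abs_div, abs_of_pos hlog, div_le_iff₀ hlog]
      exact hb
  -- mean values
  have hdiff : ∀ φ : ℝ≥0∞ → ℝ, Good φ → Tendsto (fun N : ℕ => (∑ n ∈ Finset.Icc 1 N,
      |(φ (scaled n) - mean δ φ) - (φ (ENNReal.ofReal c) - φ ⊤) * ((if P n then (1 : ℝ) else 0) - δ)|) / N)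
      atTop (𝓝 0) := by
    intro φ hφ
    refine (herr φ hφ).congr fun N => ?_
    congr 1
    apply Finset.sum_congr rfl; intro n _
    congr 1
    unfold mean
    by_cases hp : P n
    · rw [if_pos hp, if_pos hp]; ring
    · rw [if_neg hp, if_neg hp]; ring
  have hME : ∀ φ : ℝ≥0∞ → ℝ, Good φ → MEW (fun _ n => φ (scaled n) - mean δ φ) := fun φ hφ =>
    mew_near (w := fun _ n => (φ (ENNReal.ofReal c) - φ ⊤) * ((if P n then (1 : ℝ) else 0) - δ))
      (mew_smul (mew_of_me (me_inv hPinv h3)) (φ (ENNReal.ofReal c) - φ ⊤)) (hdiff φ hφ)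
  have hFU : ∀ φ : ℝ≥0∞ → ℝ, Good φ → FUW (fun n => φ (scaled n) - mean δ φ) := fun φ hφ =>
    fuw_near (fu_inv hPinv h3) (hdiff φ hφ)
  refine ⟨δ, h0, h1, ⟨hone, fun h => h2.2 (hall.1 h)⟩, hdens, fun φ hφ => mean_of (hME φ hφ),
    fun X _ μ _ R f hR hf => ?_, fun k hk => ?_, ?_⟩
  · filter_upwards [pw_phi hPinv h3 hR hf] with x hx φ hφ
    obtain ⟨M, hM⟩ := hφ.1
    have h5 := hx (fun n => φ (scaled n)) (φ (ENNReal.ofReal c)) (φ ⊤) M (fun n => hM _) (herr φ hφ)
    refine h5.congr fun N => ?_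
    rw [div_eq_inv_mul]
  · obtain ⟨r₀, -, H⟩ := pow_mean hk
    refine ⟨r₀, fun r hr => ?_⟩
    have hlim : ∀ φ : ℝ≥0∞ → ℝ, Good φ → Tendsto (fun n : ℕ => powSum (fun x => φ (scaled x)) n k r / powSum (fun _ => 1) n k r)
        atTop (𝓝 (mean δ φ)) := fun φ hφ => by
      refine (H r hr (fun x => φ (scaled x)) (mean δ φ) (hFU φ hφ)).congr fun n => ?_
      unfold powSum Pool.Agent.Q250.CL.powSum
      congr 1
    refine ⟨hlim, fun Λ ψ hΛ hψ h => hone ?_⟩
    obtain ⟨hg, hg1, hg2⟩ := trunc_good hΛ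
    by_contra hcon
    have hδ : 0 < 1 - δ := by
      rcases h1.lt_or_eq with h6 | h6
      · linarith
      · exact absurd h6 hcon
    have hm : mean δ (trunc Λ) = c + (1 - δ) * (Λ - c) := by
      unfold mean
      rw [hg1, hg2]; ring
    have hD0 : 0 < (1 - δ) * (Λ - c) := mul_pos hδ (by linarith)
    have h7 := hlim _ hg
    rw [hm] at h7
    have h8 : ∀ᶠ n : ℕ in atTop, c + (1 - δ) * (Λ - c) / 2 <
        powSum (fun x => trunc Λ (scaled x)) n k r / powSum (fun _ => 1) n k r :=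
      (tendsto_order.1 h7).1 _ (by linarith)
    have h9 : ∀ᶠ n : ℕ in atTop, ψ n < (1 - δ) * (Λ - c) / 2 := (tendsto_order.1 hψ).2 _ (by positivity)
    obtain ⟨n, g1, g2, g3⟩ := (h.and_eventually (h8.and h9)).exists
    linarith
  · intro k Λ κ ψ hΛ hκ hψ h
    refine hone ?_
    obtain ⟨hg, hg1, hg2⟩ := trunc_good hΛ
    by_contra hcon
    have hδ : 0 < 1 - δ := by
      rcases h1.lt_or_eq with h6 | h6
      · linarith
      · exact absurd h6 hcon
    set D : ℝ := (1 - δ) * (Λ - c) with hD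
    have hD0 : 0 < D := mul_pos hδ (by linarith)
    have hm : mean δ (trunc Λ) = c + D := by
      unfold mean
      rw [hg1, hg2, hD]; ring
    obtain ⟨N₀, H⟩ := mew_ret (hME _ hg) k (show 0 < D * κ / 4 by positivity)
    have h6 : ∀ᶠ N : ℕ in atTop, ψ N < D / 2 := (tendsto_order.1 hψ).2 _ (by positivity)
    obtain ⟨N, ⟨X, _, Y, A₀, A, hA₀, hA, g3, g4⟩, h7, h8⟩ := (h.and_eventually (h6.and (eventually_ge_atTop (N₀ + 2)))).exists
    have h9 := (abs_le.1 (H N (by omega) X (conv Y) A₀ A hA₀ hA)).1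
    have hN0 : (0 : ℝ) < N := by exact_mod_cast (by omega : 0 < N)
    set R : ℝ := Y.retSum A₀ A (fun _ => 1) N with hR
    have hR0 : 0 < R := lt_of_lt_of_le (by positivity) g3
    have e1 : ∑ n ∈ Finset.Icc 1 N, (trunc Λ (scaled n) - mean δ (trunc Λ)) * (conv Y).ret A₀ A n
        = Y.retSum A₀ A (fun n => trunc Λ (scaled n)) N - (c + D) * R := by
      rw [hR, hm]
      unfold System.retSum
      rw [Finset.mul_sum, ← Finset.sum_sub_distrib]
      apply Finset.sum_congr rfl; intro n _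
      have e2 : (conv Y).ret A₀ A n = Y.ret A₀ A n := rfl
      rw [e2]; ring
    rw [e1] at h9
    have h11 : D * κ / 4 * N ≤ D / 4 * R := by
      calc _ = D / 4 * (κ * N) := by ring
        _ ≤ D / 4 * R := mul_le_mul_of_nonneg_left g3 (by positivity)
    have h12 : ψ N * R < D / 2 * R := mul_lt_mul_of_pos_right h7 hR0
    have h14 : 0 < D * R := by positivity
    nlinarith

end Pool.Agent.Results.MP_f7abf1_nt.MeanValues
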